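import Mathlib

/-! Counting members of a list which are values of an injective function. -/

namespace Pool.Agent.Lib.MP81632f.K3P

theorem sum_ite_le {X K : Type*} [Fintype X] [DecidableEq K] {f : X → K}
    (hf : Function.Injective f) (b : K) : ∑ x, (if b = f x then 1 else 0) ≤ 1 := by
  classical
  rw [← Finset.card_filter, Finset.card_le_one]
  intro x hx y hy
  simp only [Finset.mem_filter, Finset.mem_univ, true_and] at hx hy
  exact hf (hx.symm.trans hy)

theorem sum_ite_eq' {X K : Type*} [Fintype X] [DecidableEq K] {f : X → K}
    (hf : Function.Injective f) (x0 : X) : ∑ x, (if f x0 = f x then 1 else 0) = 1 := by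
  classical
  rw [Finset.sum_eq_single x0]
  · simp
  · intro y _ hy
    rw [if_neg]
    intro h
    exact hy (hf h).symm
  · intro h
    exact absurd (Finset.mem_univ _) h

theorem sum_count_le {X K : Type*} [Fintype X] [DecidableEq K] {f : X → K}
    (hf : Function.Injective f) (l : List K) : ∑ x, l.count (f x) ≤ l.length := by
  induction l with
  | nil => simp
  | cons b l ih =>
    simp only [List.count_cons, Finset.sum_add_distrib, List.length_cons, beq_iff_eq]
    exact add_le_add ih (sum_ite_le hf b)

theorem sum_count {X K : Type*} [Fintype X] [DecidableEq K] {f : X → K}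
    (hf : Function.Injective f) (l : List K) (hl : ∀ z ∈ l, ∃ x, f x = z) :
    ∑ x, l.count (f x) = l.length := by
  induction l with
  | nil => simp
  | cons b l ih =>
    obtain ⟨x0, rfl⟩ := hl b List.mem_cons_self
    simp only [List.count_cons, Finset.sum_add_distrib, List.length_cons, beq_iff_eq]
    rw [ih (fun z hz => hl z (List.mem_cons_of_mem _ hz)), sum_ite_eq' hf x0]

theorem prod_count {X K : Type*} [Fintype X] [CommRing K] [DecidableEq K] {f : X → K}
    (hf : Function.Injective f) (l : List K) (hl : ∀ z ∈ l, ∃ x, f x = z) :
    ∏ x, (f x) ^ l.count (f x) = l.prod := by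
  classical
  induction l with
  | nil => simp
  | cons b l ih =>
    obtain ⟨x0, rfl⟩ := hl b List.mem_cons_self
    simp only [List.count_cons, pow_add, Finset.prod_mul_distrib, List.prod_cons, beq_iff_eq]
    rw [ih (fun z hz => hl z (List.mem_cons_of_mem _ hz)), mul_comm]
    congr 1
    rw [Finset.prod_eq_single x0]
    · simp
    · intro y _ hy
      rw [if_neg, pow_zero]
      intro h
      exact hy (hf h).symm
    · intro h
      exact absurd (Finset.mem_univ _) h

end Pool.Agent.Lib.MP81632f.K3P
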