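import Pool.Agent.Lib.MP_81632f_ag.Roots

/-! Embeddings of splitting fields. -/

namespace Pool.Agent.Lib.MP81632f.K3P

open Polynomial Pool.Agent.Lib.MP81632f

/-- Two embeddings of a normal field differ by an automorphism. -/
theorem two_emb {N K : Type*} [Field N] [Field K] [Algebra ℚ N] [Algebra ℚ K] [Normal ℚ N]
    (f g : N →ₐ[ℚ] K) : ∃ τ : N ≃ₐ[ℚ] N, ∀ x, f x = g (τ x) := by
  let alg : Algebra N K := g.toRingHom.toAlgebra
  have tower : IsScalarTower ℚ N K := IsScalarTower.of_algebraMap_eq (fun x => (g.commutes x).symm)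
  refine ⟨Normal.algHomEquivAut ℚ K N f, fun x => ?_⟩
  have h1 := (Normal.algHomEquivAut ℚ K N).symm_apply_apply f
  have h2 := congrArg (fun φ : N →ₐ[ℚ] K => φ x) h1
  exact h2.symm

/-- Automorphisms of a normal subfield extend. -/
theorem lift_aut {N L : Type*} [Field N] [Field L] [Algebra ℚ N] [Algebra ℚ L] [Normal ℚ L]
    (β : N →ₐ[ℚ] L) (τ : N ≃ₐ[ℚ] N) : ∃ g : L ≃ₐ[ℚ] L, ∀ x, g (β x) = β (τ x) := by
  let alg : Algebra N L := β.toRingHom.toAlgebra
  have tower : IsScalarTower ℚ N L := IsScalarTower.of_algebraMap_eq (fun x => (β.commutes x).symm)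
  exact ⟨τ.liftNormal L, fun x => τ.liftNormal_commutes L x⟩

/-- The splitting field of a divisor: compatible embeddings. -/
theorem compat {P PP : ℚ[X]} (h : P ∣ PP) (h0 : PP ≠ 0) (K : Type*) [Field K] [CharZero K]
    [IsAlgClosed K] : ∃ β : P.SplittingField →ₐ[ℚ] PP.SplittingField,
      (∀ x, emb PP K (β x) = emb P K x) ∧
      ∀ (Ω : Type) [Field Ω] [CharZero Ω] [IsAlgClosed Ω] (σ : P.Gal),
        ∃ g : PP.Gal, ∀ x, emb P Ω (σ x) = emb PP Ω (g (β x)) := by
  have hn1 : Normal ℚ P.SplittingField := Normal.of_isSplittingField P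
  have hn2 : Normal ℚ PP.SplittingField := Normal.of_isSplittingField PP
  have hs : ((P.map (algebraMap ℚ PP.SplittingField))).Splits :=
    (SplittingField.splits PP).of_dvd (map_ne_zero h0) ((map_dvd_map' _).mpr h)
  let β0 : P.SplittingField →ₐ[ℚ] PP.SplittingField := IsSplittingField.lift P.SplittingField P hs
  obtain ⟨τ, hτ⟩ := two_emb (emb P K) ((emb PP K).comp β0)
  let β : P.SplittingField →ₐ[ℚ] PP.SplittingField := β0.comp τ.toAlgHom
  refine ⟨β, fun x => (hτ x).symm, ?_⟩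
  intro Ω _ _ _ σ
  obtain ⟨τ', hτ'⟩ := two_emb ((emb P Ω).comp σ.toAlgHom) ((emb PP Ω).comp β)
  obtain ⟨g, hg⟩ := lift_aut β τ'
  refine ⟨g, fun x => ?_⟩
  have h1 := hτ' x
  have h2 := hg x
  change emb P Ω (σ x) = emb PP Ω (β (τ' x)) at h1
  rw [h1]
  exact congrArg (emb PP Ω) h2.symm

end Pool.Agent.Lib.MP81632f.K3P
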