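import Pool.Agent.Lib.MP_81632f_ag.K3.Alg

/-! An abstract version of `tate_comm'`: the eigenvalues are roots of a separable polynomial over
an algebraically closed field, and products of at most `i` of them which are powers of `q` are
balanced. -/

namespace Pool.Agent.Lib.MP81632f.K3P

open Polynomial Module Module.End Pool.Agent.Lib.MP81632f
open scoped Pointwise

set_option linter.unusedSectionVars false

theorem tate_abs {K R : Type*} [Field K] [CharZero K] [IsAlgClosed K] [CommRing R] [Algebra K R]
    [DecidableEq K] (f : K[X]) (hf : f.Separable) (q : K) (hq0 : q ≠ 0)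
    (M : ℕ) (hM : 0 < M) (hne0 : ∀ z, f.eval z = 0 → z ≠ 0)
    (hself : ∀ z, f.eval z = 0 → z * z ≠ q * q)
    (hnoroot : ∀ z, f.eval z = 0 → z ^ M ≠ q ^ M)
    (i N : ℕ) (hMN : M ∣ N)
    (hneat : ∀ l : List K, (∀ z ∈ l, f.eval z = 0) → l.length ≤ i →
      l.prod ^ N = q ^ (N * l.length) → ∀ c, c ≠ 0 → l.count c = l.count (q * q / c))
    (F : R →ₐ[K] R) (W : Submodule K R) [FiniteDimensional K W] (hFW : ∀ w ∈ W, F w ∈ W)
    (hF : ∀ w ∈ W, aeval F.toLinearMap ((X ^ M - C (q ^ M)) * f) w = 0)
    (ω : R) (hω : ω ∈ W ^ i)
    (hg : ω ∈ maxGenEigenspace (F ^ N).toLinearMap (q ^ (N * i))) :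
    (F ^ N) ω = q ^ (N * i) • ω ∧
    ω ∈ Algebra.adjoin K ({η : R | η ∈ W ∧ (F ^ N) η = q ^ N • η} ∪
      {η : R | η ∈ W ^ 2 ∧ (F ^ N) η = q ^ (N * 2) • η}) := by
  set Q : K := q * q with hQ
  have hQ0 : Q ≠ 0 := mul_ne_zero hq0 hq0
  have hcop : IsCoprime (X ^ M - C (q ^ M)) f := by
    rw [Polynomial.isCoprime_iff_aeval_ne_zero_of_isAlgClosed K K]
    intro z
    by_contra hcon
    push Not at hcon
    obtain ⟨h1, h2⟩ := hcon
    rw [coe_aeval_eq_eval] at h2
    apply hnoroot z h2
    simpa [sub_eq_zero] using h1
  have hsep : ((X ^ M - C (q ^ M)) * f).Separable := by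
    refine Separable.mul ?_ hf hcop
    refine separable_X_pow_sub_C _ ?_ (pow_ne_zero _ hq0)
    exact_mod_cast hM.ne'
  set F' := F.toLinearMap.restrict hFW with hF'
  have hF0 : aeval F' ((X ^ M - C (q ^ M)) * f) = 0 := by
    ext w
    have h1 := aeval_restrict_apply F.toLinearMap W hFW ((X ^ M - C (q ^ M)) * f) w
    rw [hF w.1 w.2] at h1
    rw [LinearMap.zero_apply]
    exact h1
  have hss : IsSemisimple F' := isSemisimple_of_squarefree_aeval_eq_zero hsep.squarefree hF0
  have htop := hss.iSup_eigenspace_eq_top
  set J := {w : W // ∃ μ : K, F' w = μ • w ∧ w ≠ 0} with hJ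
  let lam : J → K := fun j => j.2.choose
  have hlam' : ∀ j : J, F' j.1 = lam j • j.1 ∧ j.1 ≠ 0 := fun j => j.2.choose_spec
  let e : J → R := fun j => ((j.1 : W) : R)
  have hlam : ∀ j : J, F (e j) = lam j • e j := by
    intro j
    exact congrArg Subtype.val (hlam' j).1
  have hspan' : Submodule.span K (Set.range (fun j : J => j.1)) = ⊤ := by
    rw [eq_top_iff, ← htop]
    refine iSup_le (fun μ => ?_)
    intro w hw
    by_cases h0 : w = 0
    · rw [h0]; exact Submodule.zero_mem _
    · apply Submodule.subset_span
      exact ⟨⟨w, μ, mem_eigenspace_iff.mp hw, h0⟩, rfl⟩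
  have hspan : Submodule.span K (Set.range e) = W := by
    have h1 : Set.range e = W.subtype '' (Set.range (fun j : J => j.1)) := by
      rw [← Set.range_comp]
      rfl
    rw [h1, ← Submodule.map_span, hspan', Submodule.map_top, Submodule.range_subtype]
  have hroot : ∀ j : J, lam j ^ M = q ^ M ∨ f.eval (lam j) = 0 := by
    intro j
    have h1 : Module.End.HasEigenvector F' (lam j) j.1 :=
      ⟨mem_eigenspace_iff.mpr (hlam' j).1, (hlam' j).2⟩
    have h2 := aeval_apply_of_hasEigenvector (p := (X ^ M - C (q ^ M)) * f) h1
    rw [hF0, LinearMap.zero_apply] at h2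
    have h3 := (smul_eq_zero.mp h2.symm).resolve_right (hlam' j).2
    rw [eval_mul] at h3
    rcases mul_eq_zero.mp h3 with h4 | h4
    · left
      simpa [sub_eq_zero] using h4
    · right
      exact h4
  have hne : ∀ j, lam j ≠ 0 := by
    intro j
    rcases hroot j with h | h
    · intro h0
      rw [h0, zero_pow hM.ne'] at h
      exact pow_ne_zero M hq0 h.symm
    · exact hne0 _ h
  -- lists
  set T : End K R := (F ^ N).toLinearMap with hT
  set S : Set R := Set.range e with hS
  have hTe : ∀ j, (F ^ N) (e j) = lam j ^ N • e j := fun j => pow_eig F N (hlam j)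
  have hω' : ω ∈ Submodule.span K (S ^ i) := by
    rw [← Submodule.span_pow, hspan]
    exact hω
  have hlist : ∀ s ∈ S ^ i, ∃ l : List J, l.length = i ∧ s = (l.map e).prod := by
    intro s hs
    rw [Set.mem_pow] at hs
    obtain ⟨f, rfl⟩ := hs
    choose g hg' using fun t => (f t).2
    refine ⟨List.ofFn g, List.length_ofFn, ?_⟩
    rw [List.map_ofFn]
    congr 2
    funext t
    exact (hg' t).symm
  have hTprod : ∀ l : List J, T (l.map e).prod
      = (l.map (fun j => lam j ^ N)).prod • (l.map e).prod := by
    intro l
    rw [hT]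
    change (F ^ N) _ = _
    induction l with
    | nil => simp
    | cons j l ih =>
      simp only [List.map_cons, List.prod_cons, map_mul, ih, hTe]
      rw [smul_mul_smul_comm]
  have hS' : ∀ s ∈ S ^ i, ∃ ν : K, T s = ν • s := by
    intro s hs
    obtain ⟨l, -, rfl⟩ := hlist s hs
    exact ⟨_, hTprod l⟩
  have hmem := mem_span_eigen T (S ^ i) hS' _ hω' hg
  constructor
  · have : Submodule.span K {s ∈ S ^ i | T s = q ^ (N * i) • s} ≤ T.eigenspace (q ^ (N * i)) := by
      rw [Submodule.span_le]
      intro s hs
      exact mem_eigenspace_iff.mpr hs.2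
    exact mem_eigenspace_iff.mp (this hmem)
  · set A := Algebra.adjoin K ({η : R | η ∈ W ∧ (F ^ N) η = q ^ N • η} ∪
      {η : R | η ∈ W ^ 2 ∧ (F ^ N) η = q ^ (N * 2) • η}) with hAdef
    have heW : ∀ j, e j ∈ W := fun j => (j.1 : W).2
    have : Submodule.span K {s ∈ S ^ i | T s = q ^ (N * i) • s} ≤ Subalgebra.toSubmodule A := by
      rw [Submodule.span_le]
      rintro s ⟨hs, hs2⟩
      obtain ⟨l, hl, rfl⟩ := hlist s hs
      by_cases h0 : (l.map e).prod = 0
      · rw [h0]; exact Submodule.zero_mem _
      have hprod : (l.map (fun j => lam j ^ N)).prod = q ^ (N * i) := by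
        rw [hTprod] at hs2
        have h3 : ((l.map (fun j => lam j ^ N)).prod - q ^ (N * i)) • (l.map e).prod = 0 := by
          rw [sub_smul, hs2, sub_self]
        exact sub_eq_zero.mp ((smul_eq_zero.mp h3).resolve_right h0)
      -- split the list
      set l1 := l.filter (fun j => decide (f.eval (lam j) = 0)) with hl1
      set l2 := l.filter (fun j => ! decide (f.eval (lam j) = 0)) with hl2
      have hperm : (l1 ++ l2).Perm l := List.filter_append_perm _ l
      have hl1r : ∀ j ∈ l1, f.eval (lam j) = 0 := by
        intro j hj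
        rw [hl1, List.mem_filter] at hj
        simpa using hj.2
      have hl2r : ∀ j ∈ l2, lam j ^ N = q ^ N := by
        intro j hj
        rw [hl2, List.mem_filter] at hj
        have h1 : ¬ f.eval (lam j) = 0 := by simpa using hj.2
        have h2 := (hroot j).resolve_right h1
        obtain ⟨c, hc⟩ := hMN
        rw [hc, pow_mul, h2, ← pow_mul]
      have hlen : l1.length + l2.length = i := by
        rw [← List.length_append, hperm.length_eq, hl]
      have hprod2 : ∀ l' : List J, (∀ j ∈ l', lam j ^ N = q ^ N) →
          (l'.map (fun j => lam j ^ N)).prod = q ^ (N * l'.length) := by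
        intro l' hl'
        induction l' with
        | nil => simp
        | cons j l' ih =>
          rw [List.map_cons, List.prod_cons, hl' j List.mem_cons_self,
            ih (fun i hi => hl' i (List.mem_cons_of_mem _ hi)), List.length_cons, ← pow_add]
          congr 1
          ring
      have hprod1 : (l1.map (fun j => lam j ^ N)).prod = q ^ (N * l1.length) := by
        have h1 := (hperm.map (fun j => lam j ^ N)).prod_eq
        rw [List.map_append, List.prod_append, hprod, hprod2 l2 hl2r, ← hlen, mul_add, pow_add] at h1
        exact mul_right_cancel₀ (pow_ne_zero _ hq0) h1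
      rw [← (hperm.map e).prod_eq, List.map_append, List.prod_append]
      refine A.mul_mem ?_ ?_
      · refine prod_mem_comm A e lam Q hQ0 hne _ l1 rfl ?_ ?_ ?_
        · intro j _ j' _ hjj'
          apply Algebra.subset_adjoin
          right
          refine ⟨?_, ?_⟩
          · rw [pow_two]
            exact Submodule.mul_mem_mul (heW j) (heW j')
          · rw [map_mul, hTe, hTe, smul_mul_smul_comm, ← mul_pow, hjj', hQ, ← pow_two, ← pow_mul]
            congr 2
            ring
        · intro j hj hjj
          exact hself _ (hl1r j hj) hjj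
        · intro c hc
          have h1 := hneat (l1.map lam) (by
            intro z hz
            rw [List.mem_map] at hz
            obtain ⟨j, hj, rfl⟩ := hz
            exact hl1r j hj) (by rw [List.length_map]; omega) (by
              rw [List.length_map, ← hprod1]
              have h2 : ∀ l : List J, (l.map lam).prod ^ N = (l.map (fun j => lam j ^ N)).prod := by
                intro l
                induction l with
                | nil => simp
                | cons j l ih => simp only [List.map_cons, List.prod_cons, mul_pow, ih]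
              exact h2 l1) c hc
          have h3 : ∀ d : K, (l1.map lam).count d = l1.countP (fun j => decide (lam j = d)) := by
            intro d
            rw [List.count_eq_countP, List.countP_map]
            congr 1
          rw [h3, h3] at h1
          exact h1
      · have : ∀ l' : List J, (∀ j ∈ l', lam j ^ N = q ^ N) → (l'.map e).prod ∈ A := by
          intro l' hl'
          induction l' with
          | nil => simp
          | cons j l' ih =>
            rw [List.map_cons, List.prod_cons]
            refine A.mul_mem ?_ (ih (fun i hi => hl' i (List.mem_cons_of_mem _ hi)))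
            apply Algebra.subset_adjoin
            left
            exact ⟨heW j, by rw [hTe, hl' j List.mem_cons_self]⟩
        exact this l2 hl2r
    exact this hmem

end Pool.Agent.Lib.MP81632f.K3P
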