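import Pool.Agent.Lib.MP_81632f_ag.K3P.Union
import Pool.Agent.Lib.MP_81632f_ag.K3P.TateU

/-! Tate classes on products of powers of K3 surfaces. -/

namespace Pool.Agent.Lib.MP81632f.K3P

open Polynomial Module Module.End Pool.Agent.Lib.MP81632f Pool.Agent.Lib.MP81632f.K3

set_option linter.unusedSectionVars false

section

variable {p : ℕ} [hp : Fact p.Prime] {a : ℕ} {ι : Type} [Fintype ι] {h d m : ι → ℕ}
  {P : ι → ℚ[X]}

theorem sq_ne (hP : ∀ j, IsK3Type p a (h j) (P j) (d j) (m j)) {K : Type*} [Field K] [CharZero K]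
    [IsAlgClosed K] {z : K} (hz : aeval z (∏ j, P j) = 0) :
    z * z ≠ (p : K) ^ a * (p : K) ^ a := by
  obtain ⟨j, hj⟩ := (root_prod P z).mp hz
  obtain ⟨x, rfl⟩ := emb_surj (weil_of (hP j)) hj
  intro h1
  apply nofixR (hP j) x
  apply emb_inj (K := K)
  rw [emb_bar, div_eq_iff (root_ne_zero (weil_of (hP j)) (emb_root x)), h1, two_mul, pow_add]

theorem pow_ne' (hP : ∀ j, IsK3Type p a (h j) (P j) (d j) (m j)) {K : Type*} [Field K]
    [CharZero K] [IsAlgClosed K] {M : ℕ} (hM : 0 < M) {z : K} (hz : aeval z (∏ j, P j) = 0) :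
    z ^ M ≠ ((p : K) ^ a) ^ M := by
  obtain ⟨j, hj⟩ := (root_prod P z).mp hz
  have hW := weil_of (hP j)
  obtain ⟨x, rfl⟩ := emb_surj hW hj
  intro h
  apply nofixR (hP j) x
  apply geomR (hP j) hM
  rw [barR_coe, div_pow, div_eq_iff (pow_ne_zero _ (rts_ne_zero hW x))]
  have h1 : (x : (P j).SplittingField) ^ M = ((p : (P j).SplittingField) ^ a) ^ M := by
    apply (emb (P j) K).toRingHom.injective
    change emb (P j) K _ = emb (P j) K _
    rw [map_pow, map_pow, map_pow, map_natCast]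
    exact h
  rw [h1, two_mul, pow_add, mul_pow]

theorem prod_separable (hP : ∀ j, IsK3Type p a (h j) (P j) (d j) (m j))
    (hind : ∀ j k, j ≠ k → Independent p a (P j) (P k)) : (∏ j, P j).Separable := by
  apply separable_prod
  · intro j k hjk
    change IsCoprime (P j) (P k)
    rw [Polynomial.isCoprime_iff_aeval_ne_zero_of_isAlgClosed ℚ ℂ]
    intro z
    by_contra hcon
    push Not at hcon
    obtain ⟨h1, h2⟩ := hcon
    obtain ⟨σ, h3, h4⟩ := hind j k hjk z z h1 h2
    have hz : aeval z (∏ j, P j) = 0 := (root_prod P z).mpr ⟨j, h1⟩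
    have hz0 : z ≠ 0 := root_ne hP hz
    apply sq_ne hP hz
    rw [h3, eq_div_iff hz0, pow_two] at h4
    exact h4
  · intro j
    exact (hP j).irr.separable

/-- The theorem. -/
theorem main (hP : ∀ j, IsK3Type p a (h j) (P j) (d j) (m j))
    (hind : ∀ j k, j ≠ k → Independent p a (P j) (P k)) (i : ℕ)
    (hr : ∀ j, InRange p a (P j) (d j) (m j) i) : GeneratedByPairs p a (∏ j, P j) i := by
  classical
  intro K R _ _ _ _ _ F W M N hfin hFW hN hMN hF ω hω hg
  have hM : 0 < M := Nat.pos_of_dvd_of_pos hMN hN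
  have hev : ∀ z : K, ((∏ j, P j).map (algebraMap ℚ K)).eval z = aeval z (∏ j, P j) := by
    intro z
    rw [eval_map, ← aeval_def]
  rw [← pow_mul] at hg
  have h1 := tate_abs ((∏ j, P j).map (algebraMap ℚ K)) (prod_separable hP hind).map
    ((p : K) ^ a) (q_ne_zero K) M hM
    (fun z hz => root_ne hP (by rw [← hev]; exact hz))
    (fun z hz => sq_ne hP (by rw [← hev]; exact hz))
    (fun z hz => pow_ne' hP hM (by rw [← hev]; exact hz)) i N hMN
    (fun l hl hli hprod c hc => neat_union hP hind i hr N hN l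
      (fun z hz => by rw [← hev]; exact hl z hz) hli hprod c hc)
    F W hFW hF ω hω hg
  rw [← pow_mul]
  refine ⟨h1.1, ?_⟩
  have h2 := h1.2
  rw [pow_mul _ N 2] at h2
  exact h2

end

end Pool.Agent.Lib.MP81632f.K3P
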