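import Mathlib

/-! Separation of relations: a relation between the values of an odd function on a set with an
action of a finite group splits over invariant parts which are independent. -/

namespace Pool.Agent.Lib.MP81632f.K3P

open MulAction

section

variable {G R : Type*} [Group G] [Fintype G] [MulAction G R] [Fintype R]

theorem stab_sum [DecidableEq R] (bar : R → R) (s : R → ℝ) (hs : ∀ x, s (bar x) = - s x)
    (hbar : ∀ (g : G) x, bar (g • x) = g • bar x) (x y : R)
    (h : ∃ g : G, g • x = x ∧ g • y = bar y) (g : G) :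
    ∑ t ∈ Finset.univ.filter (fun t : G => t • x = x), s ((g * t) • y) = 0 := by
  obtain ⟨g0, h1, h2⟩ := h
  have e1 : ∑ t ∈ Finset.univ.filter (fun t : G => t • x = x), s ((g * t) • y)
      = ∑ t ∈ Finset.univ.filter (fun t : G => t • x = x), s ((g * (t * g0)) • y) := by
    symm
    apply Finset.sum_bij (fun t _ => t * g0)
    · intro t ht
      simp only [Finset.mem_filter, Finset.mem_univ, true_and] at ht ⊢
      rw [mul_smul, h1, ht]
    · intro a _ b _ hab
      exact mul_right_cancel hab
    · intro b hb
      refine ⟨b * g0⁻¹, ?_, by simp⟩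
      simp only [Finset.mem_filter, Finset.mem_univ, true_and] at hb ⊢
      rw [mul_smul, inv_smul_eq_iff.mpr h1.symm, hb]
    · intro t _
      rfl
  have e2 : ∀ t : G, s ((g * (t * g0)) • y) = - s ((g * t) • y) := by
    intro t
    rw [← mul_assoc, mul_smul (g * t), h2, ← hbar, hs]
  rw [Finset.sum_congr rfl (fun t _ => e2 t), Finset.sum_neg_distrib] at e1
  linarith

/-- The separation lemma. -/
theorem separate (bar : R → R) (s : R → ℝ) (hs : ∀ x, s (bar x) = - s x)
    (hbar : ∀ (g : G) x, bar (g • x) = g • bar x)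
    (A : R → Prop) [DecidablePred A] (hA : ∀ (g : G) x, A (g • x) ↔ A x)
    (hind : ∀ x y, A x → ¬ A y → ∃ g : G, g • x = x ∧ g • y = bar y)
    (c : R → ℝ) (hc : ∀ g : G, ∑ x, c x * s (g • x) = 0) (g : G) :
    ∑ x, (if A x then c x * s (g • x) else 0) = 0 := by
  classical
  -- the vectors
  set v : G → EuclideanSpace ℝ R := fun g => WithLp.toLp 2 (fun y => if A y then s (g • y) else 0)
    with hv
  have hvy : ∀ g y, v g y = if A y then s (g • y) else 0 := fun _ _ => rfl
  set V := Submodule.span ℝ (Set.range v) with hV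
  set cA : EuclideanSpace ℝ R := WithLp.toLp 2 (fun y => if A y then c y else 0) with hcA
  have hcy : ∀ y, cA y = if A y then c y else 0 := fun _ => rfl
  have hinner : ∀ a b : EuclideanSpace ℝ R, inner ℝ a b = ∑ y, a y * b y := by
    intro a b
    rw [PiLp.inner_apply]
    refine Finset.sum_congr rfl (fun y _ => ?_)
    simp [mul_comm]
  obtain ⟨w, hw, z, hz, hwz⟩ := V.exists_add_mem_mem_orthogonal cA
  have hzv : ∀ g, inner ℝ z (v g) = 0 := by
    intro g
    rw [real_inner_comm]
    exact (Submodule.mem_orthogonal V z).mp hz _ (Submodule.subset_span ⟨g, rfl⟩)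
  -- w is zero outside A
  have hw0 : ∀ y, ¬ A y → w y = 0 := by
    intro y hy
    have : ∀ u ∈ V, (u : EuclideanSpace ℝ R) y = 0 := by
      intro u hu
      induction hu using Submodule.span_induction with
      | mem u hu => obtain ⟨g, rfl⟩ := hu; rw [hvy, if_neg hy]
      | zero => rfl
      | add a b _ _ ha hb => simp [ha, hb]
      | smul r a _ ha => simp [ha]
    exact this w hw
  -- the sums over stabilisers
  have hstar : ∀ x, A x → ∀ g : G,
      ∑ t ∈ Finset.univ.filter (fun t : G => t • x = x), inner ℝ cA (v (g * t)) = 0 := by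
    intro x hx g
    have e1 : ∑ t ∈ Finset.univ.filter (fun t : G => t • x = x), ∑ y, c y * s ((g * t) • y)
        = 0 := Finset.sum_eq_zero (fun t _ => hc (g * t))
    rw [Finset.sum_comm] at e1
    have e2 : ∀ y, ∑ t ∈ Finset.univ.filter (fun t : G => t • x = x), c y * s ((g * t) • y)
        = ∑ t ∈ Finset.univ.filter (fun t : G => t • x = x), cA y * v (g * t) y := by
      intro y
      by_cases hy : A y
      · refine Finset.sum_congr rfl (fun t _ => ?_)
        rw [hcy, hvy, if_pos hy, if_pos hy]
      · rw [← Finset.mul_sum, stab_sum bar s hs hbar x y (hind x y hx hy) g, mul_zero]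
        symm
        refine Finset.sum_eq_zero (fun t _ => ?_)
        rw [hcy, if_neg hy, zero_mul]
    rw [Finset.sum_congr rfl (fun y _ => e2 y), Finset.sum_comm] at e1
    rw [← e1]
    exact Finset.sum_congr rfl (fun t _ => hinner _ _)
  -- translations
  let T : G → EuclideanSpace ℝ R →ₗ[ℝ] EuclideanSpace ℝ R := fun t =>
    { toFun := fun u => WithLp.toLp 2 (fun y => u (t⁻¹ • y))
      map_add' := fun a b => rfl
      map_smul' := fun r a => rfl }
  have hT : ∀ t u y, T t u y = u (t⁻¹ • y) := fun _ _ _ => rfl
  have hTv : ∀ t g, T t (v g) = v (g * t⁻¹) := by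
    intro t g
    ext y
    rw [hT, hvy, hvy]
    by_cases hy : A y
    · rw [if_pos hy, if_pos ((hA _ _).mpr hy), mul_smul]
    · rw [if_neg hy, if_neg (fun h => hy ((hA _ _).mp h))]
  have hTV : ∀ t, ∀ u ∈ V, T t u ∈ V := by
    intro t u hu
    have h1 : V ≤ V.comap (T t) := by
      rw [hV, Submodule.span_le]
      rintro _ ⟨g, rfl⟩
      change T t (v g) ∈ Submodule.span ℝ (Set.range v)
      rw [hTv]
      exact Submodule.subset_span ⟨_, rfl⟩
    exact h1 hu
  have hTi : ∀ t u g, inner ℝ (T t u) (v g) = inner ℝ u (v (g * t)) := by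
    intro t u g
    rw [hinner, hinner]
    refine Fintype.sum_equiv (MulAction.toPerm t⁻¹) _ _ (fun y => ?_)
    rw [MulAction.toPerm_apply, hT, hvy, hvy]
    by_cases hy : A y
    · rw [if_pos hy, if_pos ((hA _ _).mpr hy), mul_smul, smul_inv_smul]
    · rw [if_neg hy, if_neg (fun h => hy ((hA _ _).mp h))]
  -- w vanishes
  have hwA : ∀ x, A x → w x = 0 := by
    intro x hx
    set w' := ∑ t ∈ Finset.univ.filter (fun t : G => t • x = x), T t w with hw'
    have h1 : w' ∈ V := Submodule.sum_mem _ (fun t _ => hTV t w hw)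
    have h2 : ∀ g, inner ℝ w' (v g) = 0 := by
      intro g
      rw [hw', sum_inner, Finset.sum_congr rfl (fun t _ => hTi t w g), ← hstar x hx g]
      refine Finset.sum_congr rfl (fun t _ => ?_)
      rw [hwz, inner_add_left, hzv, add_zero]
    have h3 : w' ∈ Vᗮ := by
      rw [Submodule.mem_orthogonal]
      intro u hu
      induction hu using Submodule.span_induction with
      | mem u hu => obtain ⟨g, rfl⟩ := hu; rw [real_inner_comm]; exact h2 g
      | zero => exact inner_zero_left _
      | add a b _ _ ha hb => rw [inner_add_left, ha, hb, add_zero]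
      | smul r a _ ha => rw [inner_smul_left, ha, mul_zero]
    have h4 : w' = 0 := by
      have := (Submodule.mem_orthogonal V w').mp h3 w' h1
      exact inner_self_eq_zero.mp this
    have h5 : w' x = 0 := by rw [h4]; rfl
    have h6 : w' x = (Finset.univ.filter (fun t : G => t • x = x)).card * w x := by
      rw [hw']
      have : (∑ t ∈ Finset.univ.filter (fun t : G => t • x = x), T t w) x
          = ∑ t ∈ Finset.univ.filter (fun t : G => t • x = x), T t w x := by
        rw [WithLp.ofLp_sum, Finset.sum_apply]
      rw [this, Finset.sum_congr rfl (g := fun _ => w x), Finset.sum_const, nsmul_eq_mul]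
      intro t ht
      simp only [Finset.mem_filter, Finset.mem_univ, true_and] at ht
      rw [hT, inv_smul_eq_iff.mpr ht.symm]
    rw [h5] at h6
    have h7 : ((Finset.univ.filter (fun t : G => t • x = x)).card : ℝ) ≠ 0 := by
      have : 0 < (Finset.univ.filter (fun t : G => t • x = x)).card := by
        rw [Finset.card_pos]
        exact ⟨1, by simp⟩
      positivity
    exact (mul_eq_zero.mp h6.symm).resolve_left h7
  have hwz0 : w = 0 := by
    ext y
    by_cases hy : A y
    · rw [hwA y hy]; rfl
    · rw [hw0 y hy]; rfl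
  have h8 : inner ℝ cA (v g) = 0 := by
    rw [hwz, hwz0, zero_add]
    exact hzv g
  rw [hinner] at h8
  refine Eq.trans (Finset.sum_congr rfl (fun y _ => ?_)) h8
  rw [hcy, hvy]
  by_cases hy : A y
  · rw [if_pos hy, if_pos hy, if_pos hy]
  · rw [if_neg hy, if_neg hy, if_neg hy, zero_mul]

end

end Pool.Agent.Lib.MP81632f.K3P
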