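import Pool.Agent.Lib.MP_81632f_ag.K3.Statement

/-! The independence condition used by the statement of `K3Products`. -/

namespace Pool.Agent.Lib.MP81632f.K3P

open Polynomial

/-- For all complex roots `x` of `P` and `y` of `P'` some automorphism of the complex numbers
fixes `x` and maps `y` to `q ^ 2 / y`, `q = p ^ a`. -/
def Independent (p a : ℕ) (P P' : ℚ[X]) : Prop :=
  ∀ x y : ℂ, aeval x P = 0 → aeval y P' = 0 →
    ∃ σ : ℂ ≃+* ℂ, σ x = x ∧ σ y = ((p : ℂ) ^ a) ^ 2 / y

end Pool.Agent.Lib.MP81632f.K3P
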