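import Pool.Agent.Lib.MP_81632f_ag.K3P.Sep
import Pool.Agent.Lib.MP_81632f_ag.K3P.Embed
import Pool.Agent.Lib.MP_81632f_ag.K3P.Cnt
import Pool.Agent.Lib.MP_81632f_ag.K3P.Statement
import Pool.Agent.Lib.MP_81632f_ag.K3.Proof

/-! Multiplicative relations between the roots of several polynomials of K3 type. -/

namespace Pool.Agent.Lib.MP81632f.K3P

open Polynomial Pool.Agent.Lib.MP81632f Pool.Agent.Lib.MP81632f.K3

set_option linter.unusedSectionVars false

section add

variable {p : ℕ} [hp : Fact p.Prime] {a h : ℕ} {P : ℚ[X]} {d m : ℕ}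

/-- relations in additive form -/
theorem isRel_add (hP : IsK3Type p a h P d m) (c : Rts P → ℤ)
    (hc : ∀ σ : P.Gal, ∑ x, c x * vK p a h P (σ • x) = 0) :
    IsRel P.Gal (barR (weil_of hP)) (vK p a h P) (fun x => c x - c (barR (weil_of hP) x)) := by
  have hs := signed (weil_of hP) (by have := hP.ha; omega) (slope_of hP)
  refine ⟨fun x => ?_, fun σ => ?_⟩
  · simp only [hs.bar_bar]; ring
  · have h2 : ∑ x, c (barR (weil_of hP) x) * vK p a h P (σ • x)
        = - ∑ x, c x * vK p a h P (σ • x) := by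
      rw [← Finset.sum_neg_distrib]
      have hinv : Function.Involutive (barR (weil_of hP)) := hs.bar_bar
      refine Fintype.sum_equiv hinv.toPerm _ _ (fun x => ?_)
      simp only [Function.Involutive.coe_toPerm]
      have e : vK p a h P (barR (weil_of hP) (σ • x)) = - vK p a h P (σ • x) := hs.m_bar (σ • x)
      rw [← hs.bar_smul, e]; ring
    simp only [sub_mul, Finset.sum_sub_distrib]
    rw [h2, hc]; ring

/-- `neat` in additive form -/
theorem neatAdd (hP : IsK3Type p a h P d m) (i : ℕ) (hr : InRange p a P d m i) (c : Rts P → ℤ)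
    (hc0 : ∀ x, 0 ≤ c x) (hci : ∑ x, c x ≤ i)
    (hc : ∀ σ : P.Gal, ∑ x, c x * vK p a h P (σ • x) = 0) (x : Rts P) :
    c x = c (barR (weil_of hP) x) := by
  classical
  have hrel := isRel_add hP c hc
  have hall : (Covered d m ∨ (Odd m ∧ m < d ∧ PairTwoTransitive P.Gal (barR (weil_of hP))) ∨
      SignSeparating P.Gal (barR (weil_of hP))) → c x = c (barR (weil_of hP) x) := by
    intro h1
    have h2 := congrFun (core_all (k3System hP) hP.pos h1 hrel) x
    simp only [Pi.zero_apply] at h2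
    linarith
  rcases hr with h1 | ⟨h1, h2, h3⟩ | h1 | ⟨h1, h2⟩ | ⟨h1, h2 | h2⟩
  · exact hall (Or.inl h1)
  · exact hall (Or.inr (Or.inl ⟨h1, h2, pairTwoTransitive hP h3⟩))
  · exact hall (Or.inr (Or.inr (signSeparating hP h1)))
  · exact short_three (k3System hP) hP.pos h2 c hc0 (hci.trans (by exact_mod_cast h1))
      hc hrel x
  · exact short_const (k3System hP) hP.pos h1 c hc0 (lt_of_le_of_lt hci (by exact_mod_cast h2))
      hrel x
  · have h3 := congrFun (relation_zero_of_noImaginary hP h1 h2 hrel) x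
    simp only [Pi.zero_apply] at h3
    linarith

theorem log_q_ne (hP : IsK3Type p a h P d m) : Real.log ‖(p : PadicAlgCl p) ^ a‖ ≠ 0 := by
  have h1 : 0 < ‖(p : PadicAlgCl p) ^ a‖ := norm_q_pos
  have h2 : ‖(p : PadicAlgCl p) ^ a‖ < 1 := norm_q_lt hP.ha
  exact (Real.log_neg h1 h2).ne

/-- the logarithm of the absolute value of a root -/
theorem k3_log (hP : IsK3Type p a h P d m) (x : Rts P) :
    (h : ℝ) * (Real.log ‖emb P (PadicAlgCl p) x‖ - Real.log ‖(p : PadicAlgCl p) ^ a‖)
      = (vK p a h P x : ℝ) * Real.log ‖(p : PadicAlgCl p) ^ a‖ := by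
  have h1 := congrArg Real.log (norm_mK hP (emb_root (K := PadicAlgCl p) x))
  rw [Real.log_pow, Real.log_zpow] at h1
  have h2 : (vK p a h P x : ℝ) = ((mK p a h (emb P (PadicAlgCl p) x) : ℤ) : ℝ) := rfl
  rw [h2]
  push_cast at h1
  linarith

theorem rel_of_log (hP : IsK3Type p a h P d m) (c : Rts P → ℤ) (σ : P.Gal)
    (hc : ∑ x, (c x : ℝ) * (Real.log ‖emb P (PadicAlgCl p) (σ x)‖
      - Real.log ‖(p : PadicAlgCl p) ^ a‖) = 0) :
    ∑ x, c x * vK p a h P (σ • x) = 0 := by
  have h1 : (∑ x, (c x : ℝ) * (vK p a h P (σ • x) : ℝ)) * Real.log ‖(p : PadicAlgCl p) ^ a‖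
      = 0 := by
    have h2 : ∀ x : Rts P, (c x : ℝ) * (vK p a h P (σ • x) : ℝ)
        * Real.log ‖(p : PadicAlgCl p) ^ a‖
        = (h : ℝ) * ((c x : ℝ) * (Real.log ‖emb P (PadicAlgCl p) (σ x)‖
      - Real.log ‖(p : PadicAlgCl p) ^ a‖)) := by
      intro x
      have h3 := k3_log hP (σ • x)
      rw [smul_coe] at h3
      linear_combination - (c x : ℝ) * h3
    rw [Finset.sum_mul, Finset.sum_congr rfl (fun x _ => h2 x), ← Finset.mul_sum, hc, mul_zero]
  have h3 := (mul_eq_zero.mp h1).resolve_right (log_q_ne hP)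
  exact_mod_cast h3

end add

section union

variable {p : ℕ} [hp : Fact p.Prime] {a : ℕ} {ι : Type} [Fintype ι] {h d m : ι → ℕ}
  {P : ι → ℚ[X]}

theorem root_prod {K : Type*} [Field K] [CharZero K] (P : ι → ℚ[X]) (z : K) :
    aeval z (∏ j, P j) = 0 ↔ ∃ j, aeval z (P j) = 0 := by
  rw [map_prod, Finset.prod_eq_zero_iff]
  simp

theorem prod_ne (hP : ∀ j, IsK3Type p a (h j) (P j) (d j) (m j)) : (∏ j, P j) ≠ 0 :=
  Finset.prod_ne_zero_iff.mpr (fun j _ => (hP j).irr.ne_zero)

theorem root_ne (hP : ∀ j, IsK3Type p a (h j) (P j) (d j) (m j)) {K : Type*} [Field K] [CharZero K]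
    {z : K} (hz : aeval z (∏ j, P j) = 0) : z ≠ 0 := by
  obtain ⟨j, hj⟩ := (root_prod P z).mp hz
  exact root_ne_zero (weil_of (hP j)) hj

theorem root_bar (hP : ∀ j, IsK3Type p a (h j) (P j) (d j) (m j)) {K : Type*} [Field K]
    [CharZero K] {z : K} (hz : aeval z (∏ j, P j) = 0) :
    aeval ((p : K) ^ (2 * a) / z) (∏ j, P j) = 0 := by
  obtain ⟨j, hj⟩ := (root_prod P z).mp hz
  exact (root_prod P _).mpr ⟨j, bar_root (weil_of (hP j)) hj⟩

/-- the involution on the roots of the product -/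
noncomputable def barU (hP : ∀ j, IsK3Type p a (h j) (P j) (d j) (m j)) (x : Rts (∏ j, P j)) :
    Rts (∏ j, P j) :=
  ⟨(p : (∏ j, P j).SplittingField) ^ (2 * a) / x,
    mem_rootSet.mpr ⟨prod_ne hP, root_bar hP (rts_root x)⟩⟩

theorem emb_surj' {PP : ℚ[X]} (h0 : PP ≠ 0) {K : Type*} [Field K] [CharZero K] [IsAlgClosed K]
    {z : K} (hz : aeval z PP = 0) : ∃ x : Rts PP, emb PP K x = z := by
  have h1 : z ∈ PP.rootSet K := mem_rootSet.mpr ⟨h0, hz⟩
  have hs : ((PP.map (algebraMap ℚ PP.SplittingField)).Splits) := SplittingField.splits PP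
  rw [← hs.image_rootSet (emb PP K)] at h1
  obtain ⟨x, hx, hxz⟩ := h1
  exact ⟨⟨x, hx⟩, hxz⟩

/-- the logarithmic slope -/
noncomputable def sl (p : ℕ) [Fact p.Prime] (a : ℕ) (PP : ℚ[X]) (x : Rts PP) : ℝ :=
  Real.log ‖emb PP (PadicAlgCl p) x‖ - Real.log ‖(p : PadicAlgCl p) ^ a‖

theorem sl_bar (hP : ∀ j, IsK3Type p a (h j) (P j) (d j) (m j)) (x : Rts (∏ j, P j)) :
    sl p a (∏ j, P j) (barU hP x) = - sl p a (∏ j, P j) x := by
  have h1 : emb (∏ j, P j) (PadicAlgCl p) (barU hP x : Rts (∏ j, P j))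
      = (p : PadicAlgCl p) ^ (2 * a) / emb (∏ j, P j) (PadicAlgCl p) x := by
    change emb (∏ j, P j) (PadicAlgCl p) ((p : (∏ j, P j).SplittingField) ^ (2 * a) / x) = _
    rw [map_div₀, map_pow, map_natCast]
  have h2 : emb (∏ j, P j) (PadicAlgCl p) x ≠ 0 := root_ne hP (emb_root x)
  have h3 : ‖(p : PadicAlgCl p) ^ a‖ ≠ 0 := norm_q_pos.ne'
  unfold sl
  rw [h1, norm_div, Real.log_div _ (norm_ne_zero_iff.mpr h2), mul_comm 2 a, pow_mul, norm_pow _ 2,
    Real.log_pow]
  · push_cast; ring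
  · rw [mul_comm 2 a, pow_mul, norm_pow _ 2]
    exact pow_ne_zero _ h3

/-- multiplicative relations in logarithmic form -/
theorem rel_log (hP : ∀ j, IsK3Type p a (h j) (P j) (d j) (m j)) (c : Rts (∏ j, P j) → ℕ) {N : ℕ}
    (hN : 0 < N) (hc : (∏ x : Rts (∏ j, P j), (x : (∏ j, P j).SplittingField) ^ c x) ^ N
      = ((p : (∏ j, P j).SplittingField) ^ a) ^ (N * ∑ x, c x)) (g : (∏ j, P j).Gal) :
    ∑ x, (c x : ℝ) * sl p a (∏ j, P j) (g • x) = 0 := by
  have h1 := congrArg (fun y => Real.log ‖emb (∏ j, P j) (PadicAlgCl p) (g y)‖) hc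
  simp only [map_pow, map_prod, map_natCast, norm_pow, norm_prod] at h1
  have h0 : ∀ x : Rts (∏ j, P j), ‖emb (∏ j, P j) (PadicAlgCl p) (g x)‖ ≠ 0 := by
    intro x
    rw [norm_ne_zero_iff]
    exact root_ne hP (emb_root (g • x))
  rw [Real.log_pow, Real.log_prod (fun x _ => pow_ne_zero _ (h0 x))] at h1
  have h2 : ∀ x : Rts (∏ j, P j), Real.log (‖emb (∏ j, P j) (PadicAlgCl p) (g x)‖ ^ c x)
      = (c x : ℝ) * sl p a (∏ j, P j) (g • x)
        + (c x : ℝ) * Real.log ‖(p : PadicAlgCl p) ^ a‖ := by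
    intro x
    unfold sl
    rw [Real.log_pow, smul_coe]
    ring
  rw [Finset.sum_congr rfl (fun x _ => h2 x), Finset.sum_add_distrib, ← Finset.sum_mul,
    Real.log_pow, ← norm_pow] at h1
  push_cast at h1
  have h3 : (N : ℝ) ≠ 0 := by exact_mod_cast hN.ne'
  have h4 : (N : ℝ) * ∑ x, (c x : ℝ) * sl p a (∏ j, P j) (g • x) = 0 := by linarith
  exact (mul_eq_zero.mp h4).resolve_left h3

/-- automorphisms of the complex numbers restrict -/
theorem exists_gal {PP : ℚ[X]} (σ : ℂ ≃+* ℂ) :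
    ∃ g : PP.Gal, ∀ y : PP.SplittingField, emb PP ℂ (g y) = σ (emb PP ℂ y) := by
  let _ : Algebra PP.SplittingField ℂ := (emb PP ℂ).toRingHom.toAlgebra
  have hmap : ∀ z : PP.SplittingField, algebraMap PP.SplittingField ℂ z = emb PP ℂ z :=
    fun _ => rfl
  have : IsScalarTower ℚ PP.SplittingField ℂ :=
    IsScalarTower.of_algebraMap_eq (fun r => by rw [hmap, AlgHom.commutes])
  have : Normal ℚ PP.SplittingField := Normal.of_isSplittingField PP
  let τ' : ℂ ≃ₐ[ℚ] ℂ := AlgEquiv.ofRingEquiv (f := σ) (fun r => map_ratCast σ r)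
  exact ⟨AlgEquiv.restrictNormal τ' PP.SplittingField,
    fun y => AlgEquiv.restrictNormal_commutes τ' PP.SplittingField y⟩

theorem indep_gal (hP : ∀ j, IsK3Type p a (h j) (P j) (d j) (m j)) {j k : ι}
    (hI : Independent p a (P j) (P k)) (x y : Rts (∏ j, P j)) (hx : aeval (x : (∏ j, P j).SplittingField) (P j) = 0)
    (hy : aeval (y : (∏ j, P j).SplittingField) (P k) = 0) :
    ∃ g : (∏ j, P j).Gal, g • x = x ∧ g • y = barU hP y := by
  obtain ⟨σ, h1, h2⟩ := hI (emb (∏ j, P j) ℂ x) (emb (∏ j, P j) ℂ y)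
    (by rw [aeval_algHom_apply, hx, map_zero]) (by rw [aeval_algHom_apply, hy, map_zero])
  obtain ⟨g, hg⟩ := exists_gal (PP := ∏ j, P j) σ
  refine ⟨g, ?_, ?_⟩
  · apply emb_inj (K := ℂ)
    rw [smul_coe, hg, h1]
  · apply emb_inj (K := ℂ)
    rw [smul_coe, hg, h2]
    change _ = emb (∏ j, P j) ℂ ((p : (∏ j, P j).SplittingField) ^ (2 * a) / y)
    rw [map_div₀, map_pow, map_natCast, mul_comm 2 a, pow_mul]

theorem smul_barU (hP : ∀ j, IsK3Type p a (h j) (P j) (d j) (m j)) (g : (∏ j, P j).Gal)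
    (x : Rts (∏ j, P j)) : barU hP (g • x) = g • barU hP x := by
  apply Subtype.ext
  change (p : (∏ j, P j).SplittingField) ^ (2 * a) / (g x)
    = g ((p : (∏ j, P j).SplittingField) ^ (2 * a) / x)
  have : g ((p : (∏ j, P j).SplittingField) ^ (2 * a) / x)
      = g ((p : (∏ j, P j).SplittingField) ^ (2 * a)) / g x := map_div₀ g _ _
  rw [this]
  congr 1
  rw [map_pow, map_natCast]

/-- Products of at most `i` roots which are powers of `q` up to roots of unity are balanced. -/
theorem neat_union (hP : ∀ j, IsK3Type p a (h j) (P j) (d j) (m j))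
    (hind : ∀ j k, j ≠ k → Independent p a (P j) (P k)) (i : ℕ)
    (hr : ∀ j, InRange p a (P j) (d j) (m j) i)
    {K : Type*} [Field K] [CharZero K] [IsAlgClosed K] [DecidableEq K] (N : ℕ) (hN : 0 < N)
    (l : List K) (hl : ∀ z ∈ l, aeval z (∏ j, P j) = 0) (hli : l.length ≤ i)
    (hprod : l.prod ^ N = ((p : K) ^ a) ^ (N * l.length)) (c : K) (hc : c ≠ 0) :
    l.count c = l.count (((p : K) ^ a) * ((p : K) ^ a) / c) := by
  classical
  set PP := ∏ j, P j with hPP
  have h0 : PP ≠ 0 := prod_ne hP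
  have hQ : ((p : K) ^ a) * ((p : K) ^ a) = (p : K) ^ (2 * a) := by rw [two_mul, pow_add]
  have hQ0 : (p : K) ^ (2 * a) ≠ 0 := q_ne_zero K
  rw [hQ]
  -- the relation in the splitting field
  set cL : Rts PP → ℕ := fun x => l.count (emb PP K x) with hcL
  have hinj : Function.Injective (fun x : Rts PP => emb PP K x) := fun x y hxy => emb_inj hxy
  have hrange : ∀ z ∈ l, ∃ x : Rts PP, emb PP K x = z := fun z hz => emb_surj' h0 (hl z hz)
  have hsum : ∑ x, cL x = l.length := sum_count hinj l hrange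
  have hrelL : (∏ x : Rts PP, (x : PP.SplittingField) ^ cL x) ^ N
      = ((p : PP.SplittingField) ^ a) ^ (N * ∑ x, cL x) := by
    apply (emb PP K).toRingHom.injective
    change emb PP K _ = emb PP K _
    rw [map_pow, map_prod, map_pow, map_pow, map_natCast, hsum, ← hprod]
    congr 1
    rw [← prod_count hinj l hrange]
    refine Finset.prod_congr rfl (fun x _ => ?_)
    rw [map_pow]
  have hlog := rel_log hP cL hN hrelL
  -- the roots
  by_cases hroot : aeval c PP = 0
  · obtain ⟨j, hj⟩ := (root_prod P c).mp hroot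
    have hWj := weil_of (hP j)
    -- separation
    have hsep := fun g => separate (G := PP.Gal) (barU hP) (sl p a PP) (sl_bar hP) (smul_barU hP)
      (fun x : Rts PP => aeval (x : PP.SplittingField) (P j) = 0)
      (by
        intro g x
        rw [smul_coe]
        have h1 : aeval (g (x : PP.SplittingField)) (P j)
            = g (aeval (x : PP.SplittingField) (P j)) :=
          aeval_algHom_apply (g : PP.SplittingField ≃ₐ[ℚ] PP.SplittingField).toAlgHom _ _
        rw [h1]
        exact map_eq_zero_iff g (EquivLike.injective g))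
      (by
        intro x y hx hy
        obtain ⟨k, hk⟩ := (root_prod P (y : PP.SplittingField)).mp (rts_root y)
        have hjk : j ≠ k := by
          rintro rfl
          exact hy hk
        exact indep_gal hP (hind j k hjk) x y hx hk)
      (fun x => (cL x : ℝ)) hlog g
    -- transport
    obtain ⟨β, hβ1, hβ2⟩ := compat (Finset.dvd_prod_of_mem P (Finset.mem_univ j)) h0 K
    have hβroot : ∀ x : Rts (P j), aeval (β x) (P j) = 0 := by
      intro x
      rw [aeval_algHom_apply, rts_root, map_zero]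
    let βR : Rts (P j) → Rts PP := fun x =>
      ⟨β x, mem_rootSet.mpr ⟨h0, (root_prod P _).mpr ⟨j, hβroot x⟩⟩⟩
    set cj : Rts (P j) → ℤ := fun x => (l.count (emb (P j) K x) : ℕ) with hcj
    have hcj' : ∀ x, cj x = (cL (βR x) : ℕ) := by
      intro x
      change ((l.count (emb (P j) K x) : ℕ) : ℤ) = ((l.count (emb PP K (β x)) : ℕ) : ℤ)
      rw [hβ1]
    have hadd : ∀ σ : (P j).Gal, ∑ x, cj x * vK p a (h j) (P j) (σ • x) = 0 := by
      intro σ
      apply rel_of_log (hP j)
      obtain ⟨g, hg⟩ := hβ2 (PadicAlgCl p) σ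
      rw [← hsep g, ← Finset.sum_filter]
      refine Finset.sum_bij (fun x _ => βR x) ?_ ?_ ?_ ?_
      · intro x _
        simp only [Finset.mem_filter, Finset.mem_univ, true_and]
        exact hβroot x
      · intro x _ y _ hxy
        apply Subtype.ext
        exact β.toRingHom.injective (congrArg Subtype.val hxy)
      · intro z hz
        simp only [Finset.mem_filter, Finset.mem_univ, true_and] at hz
        have h1 : aeval (emb PP K z) (P j) = 0 := by rw [aeval_algHom_apply, hz, map_zero]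
        obtain ⟨x, hx⟩ := emb_surj hWj h1
        refine ⟨x, Finset.mem_univ _, ?_⟩
        apply hinj
        change emb PP K (β x) = emb PP K z
        rw [hβ1, hx]
      · intro x _
        rw [hcj' x]
        unfold sl
        rw [smul_coe]
        have h2 : emb PP (PadicAlgCl p) (g (βR x : Rts PP)) = emb (P j) (PadicAlgCl p) (σ x) :=
          (hg x).symm
        rw [h2]
        push_cast
        rfl
    obtain ⟨x, rfl⟩ := emb_surj hWj hj
    have hinjj : Function.Injective (fun x : Rts (P j) => emb (P j) K x) :=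
      fun x y hxy => emb_inj hxy
    have h3 := neatAdd (hP j) i (hr j) cj (fun x => by positivity) (by
      have h4 := sum_count_le hinjj l
      have h5 : ∑ x, cj x = ((∑ x : Rts (P j), l.count (emb (P j) K x) : ℕ) : ℤ) := by
        push_cast; rfl
      rw [h5]
      exact_mod_cast h4.trans hli) hadd x
    have h6 : ((l.count (emb (P j) K x) : ℕ) : ℤ)
        = ((l.count (emb (P j) K (barR hWj x : Rts (P j))) : ℕ) : ℤ) := h3
    rw [emb_bar hWj] at h6
    exact_mod_cast h6
  · have e1 : l.count c = 0 := by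
      rw [List.count_eq_zero]
      intro hcl
      exact hroot (hl c hcl)
    have e2 : l.count ((p : K) ^ (2 * a) / c) = 0 := by
      rw [List.count_eq_zero]
      intro hcl
      apply hroot
      have h1 := root_bar hP (hl _ hcl)
      rwa [div_div_cancel₀ hQ0] at h1
    rw [e1, e2]

end union

end Pool.Agent.Lib.MP81632f.K3P
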